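import Mathlib
import Pool.Agent.W2helper24.TQ.All
import Pool.Agent.W2helper24.TQ.Stm2

/-!
# The real period of `y² = x³ - D²` and the complex period (project TQ, piece H3)
-/

set_option autoImplicit false

namespace Pool.Agent.W2helper99.TQ

open NumberField IsDedekindDomain Complex Filter Topology
open Pool.Agent.Y696 Pool.Agent.W192.HK Pool.Agent.TH936.CM Pool.Agent.TH936.PU
open Pool.Agent.W2helper24.TQ
open Pool.Agent.W2helper73.TQ (exists_over_three vc_three)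
open scoped PeriodPair Classical

lemma conj_hex_one {z : ℂ} (h : z ∈ (hex 1 one_ne_zero).lattice) :
    (starRingEnd ℂ) z ∈ (hex 1 one_ne_zero).lattice := by
  obtain ⟨r, hr⟩ := ((hex_lat 1 one_ne_zero).mem _).1 h
  exact ((hex_lat 1 one_ne_zero).mem _).2 ⟨cj r, by rw [hr, cj_coe, map_mul, map_one]⟩

lemma conj_g3_one : (starRingEnd ℂ) (hex 1 one_ne_zero).g₃ = (hex 1 one_ne_zero).g₃ := by
  rw [PeriodPair.g₃, PeriodPair.G, map_mul, map_ofNat, Complex.conj_tsum]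
  congr 1
  let e : (hex 1 one_ne_zero).lattice ≃ (hex 1 one_ne_zero).lattice :=
    { toFun := fun z => ⟨(starRingEnd ℂ) z, conj_hex_one z.2⟩
      invFun := fun z => ⟨(starRingEnd ℂ) z, conj_hex_one z.2⟩
      left_inv := fun z => Subtype.ext (Complex.conj_conj _)
      right_inv := fun z => Subtype.ext (Complex.conj_conj _) }
  rw [← e.tsum_eq]
  refine tsum_congr fun l => ?_
  rw [map_inv₀, map_pow]
  have : ((e l : (hex 1 one_ne_zero).lattice) : ℂ) = (starRingEnd ℂ) (l : ℂ) := rfl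
  rw [this, Complex.conj_conj]

/-- the lattice of `y² = 4 x³ - 4` -/
theorem exists_hexM : ∃ (Ω : ℂ) (hΩ : Ω ≠ 0), CurM (hex Ω hΩ) Ω := by
  have h0 := hex_g3 1 one_ne_zero
  obtain ⟨Ω, hΩ⟩ := IsAlgClosed.exists_pow_nat_eq ((hex 1 one_ne_zero).g₃ / 4) (n := 6) (by norm_num)
  have hΩ0 : Ω ≠ 0 := by
    rintro rfl
    apply h0
    rw [zero_pow (by norm_num)] at hΩ
    linear_combination (-4) * hΩ
  refine ⟨Ω, hΩ0, hex_lat Ω hΩ0, hex_g2 Ω hΩ0, ?_⟩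
  rw [hex_g3_scale hΩ0, hΩ]
  field_simp

/-- the lattice is stable under the complex conjugation -/
lemma conj_mem_hex {Ω : ℂ} {hΩ : Ω ≠ 0} (hC : CurM (hex Ω hΩ) Ω) {z : ℂ}
    (hz : z ∈ (hex Ω hΩ).lattice) : (starRingEnd ℂ) z ∈ (hex Ω hΩ).lattice := by
  have hΩc : (starRingEnd ℂ) Ω ≠ 0 := (map_ne_zero _).2 hΩ
  have h1 : (hex ((starRingEnd ℂ) Ω) hΩc).g₃ = 4 := by
    have h3 := congrArg (starRingEnd ℂ) hC.g3
    rw [hex_g3_scale hΩ, map_div₀, conj_g3_one, map_pow] at h3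
    rw [hex_g3_scale hΩc, h3]
    exact map_ofNat _ 4
  have h2 := Pool.Agent.Y577.LU.lat_unique (hex Ω hΩ) (hex _ hΩc)
    ((hex_g2 Ω hΩ).trans (hex_g2 _ hΩc).symm) (hC.g3.trans h1.symm)
  obtain ⟨a, ha⟩ := ((hex_lat Ω hΩ).mem _).1 hz
  rw [h2]
  refine ((hex_lat _ hΩc).mem _).2 ⟨cj a, ?_⟩
  rw [ha, map_mul, cj_coe]

/-- the derivative of the Weierstrass function of a real lattice -/
lemma wp'_conj {L : PeriodPair} (h : ∀ z ∈ L.lattice, (starRingEnd ℂ) z ∈ L.lattice) (z : ℂ) :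
    ℘'[L] ((starRingEnd ℂ) z) = (starRingEnd ℂ) (℘'[L] z) := by
  rw [PeriodPair.derivWeierstrassP, PeriodPair.derivWeierstrassP, map_neg, Complex.conj_tsum]
  congr 1
  let e : L.lattice ≃ L.lattice :=
    { toFun := fun z => ⟨(starRingEnd ℂ) z, h _ z.2⟩
      invFun := fun z => ⟨(starRingEnd ℂ) z, h _ z.2⟩
      left_inv := fun z => Subtype.ext (Complex.conj_conj _)
      right_inv := fun z => Subtype.ext (Complex.conj_conj _) }
  rw [← e.tsum_eq]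
  refine tsum_congr fun l => ?_
  have : ((e l : L.lattice) : ℂ) = (starRingEnd ℂ) (l : ℂ) := rfl
  rw [this, map_div₀, map_pow, map_sub, map_ofNat]

lemma wp'_real {L : PeriodPair} (h : ∀ z ∈ L.lattice, (starRingEnd ℂ) z ∈ L.lattice) (t : ℝ) :
    ℘'[L] (t : ℂ) ^ 2 ≠ -4 := by
  have h1 := wp'_conj h (t : ℂ)
  rw [Complex.conj_ofReal, eq_comm, Complex.conj_eq_iff_real] at h1
  obtain ⟨r, hr⟩ := h1
  rw [hr]
  intro h2
  have h3 : r ^ 2 = -4 := by exact_mod_cast h2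
  nlinarith [sq_nonneg r]

/-- the least positive real period -/
lemma exists_beta {Ω : ℂ} {hΩ : Ω ≠ 0} (hC : CurM (hex Ω hΩ) Ω) {ω : ℝ}
    (h : IsLeast {t : ℝ | 0 < t ∧ (t : ℂ) ∈ (hex Ω hΩ).lattice} ω) :
    ∃ β : eis, (ω : ℂ) = Ω * β ∧ β ∉ (sp lam : Ideal eis) := by
  obtain ⟨β, hβ⟩ := (hC.lat.mem _).1 h.1.2
  refine ⟨β, hβ, fun hl => ?_⟩
  rw [Ideal.mem_span_singleton'] at hl
  obtain ⟨γ, rfl⟩ := hl
  have hl3 : (lam : ℂ) ^ 2 = -3 := Pool.Agent.W2helper66.TQ.lam_sq_c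
  have hl0 : (lam : ℂ) ≠ 0 := by
    intro h0
    rw [h0] at hl3
    norm_num at hl3
  -- the point
  have hpt : ((ω / 3 : ℝ) : ℂ) = -(Ω * γ / lam) := by
    push_cast at hβ ⊢
    have e0 : (lam : ℂ) / 3 = -(1 / lam) := by
      field_simp
      linear_combination hl3
    rw [hβ]
    linear_combination (Ω * (γ : ℂ)) * e0
  have hnot : ((ω / 3 : ℝ) : ℂ) ∉ (hex Ω hΩ).lattice := by
    intro hm
    have h1 := h.2 ⟨by linarith [h.1.1], hm⟩
    linarith [h.1.1]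
  have hdz : ℘'[hex Ω hΩ] (Ω / (lam : ℂ)) ^ 2 = -4 := Pool.Agent.W2helper17.TQ.B4.dwp_z0 hC
  have key : ∀ s : ℤ, (s = 1 ∨ s = -1) → (γ : eis) - s ∈ (sp lam : Ideal eis) →
      ℘'[hex Ω hΩ] (((ω / 3 : ℝ) : ℂ)) ^ 2 = -4 := by
    intro s hs hm
    rw [Ideal.mem_span_singleton'] at hm
    obtain ⟨a, ha⟩ := hm
    have hγ : (γ : ℂ) = s + a * lam := by
      have := congrArg (fun x : eis => (x : ℂ)) ha
      push_cast at this
      rw [this]
      ring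
    have e1 : ((ω / 3 : ℝ) : ℂ) = -(s * (Ω / lam)) + ((⟨-(Ω * a), (hC.lat.mem _).2 ⟨-a, by
        push_cast; ring⟩⟩ : (hex Ω hΩ).lattice) : ℂ) := by
      rw [hpt, hγ]
      push_cast
      field_simp
      ring
    rw [e1, PeriodPair.derivWeierstrassP_add_coe, PeriodPair.derivWeierstrassP_neg]
    rcases hs with rfl | rfl
    · push_cast
      rw [one_mul, neg_sq, hdz]
    · push_cast
      rw [neg_one_mul, PeriodPair.derivWeierstrassP_neg, neg_neg, hdz]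
  rcases Pool.Agent.W2helper66.TQ.lam_mod γ with h1 | h1 | h1
  · apply hnot
    rw [Ideal.mem_span_singleton'] at h1
    obtain ⟨a, rfl⟩ := h1
    rw [hpt]
    refine (hC.lat.mem _).2 ⟨-a, ?_⟩
    push_cast
    field_simp
  · exact wp'_real (fun z hz => conj_mem_hex hC hz) _ (key 1 (Or.inl rfl) (by push_cast; exact h1))
  · exact wp'_real (fun z hz => conj_mem_hex hC hz) _ (key (-1) (Or.inr rfl) (by
      push_cast; rw [sub_neg_eq_add]; exact h1))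

lemma cop_of_not {β : eis} (h : β ∉ (sp lam : Ideal eis)) : IsCoprime β 3 := by
  have h1 : ∃ s : eis, s * s = 1 ∧ β - s ∈ (sp lam : Ideal eis) := by
    rcases Pool.Agent.W2helper66.TQ.lam_mod β with h1 | h1 | h1
    · exact absurd h1 h
    · exact ⟨1, by ring, h1⟩
    · exact ⟨-1, by ring, by rwa [sub_neg_eq_add]⟩
  obtain ⟨s, hs, hm⟩ := h1
  rw [Ideal.mem_span_singleton'] at hm
  obtain ⟨a, ha⟩ := hm
  have h2 : IsCoprime β lam := ⟨s, -(s * a), by linear_combination (-s) * ha + hs⟩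
  have h3 : (3 : eis) = -(lam * lam) := by
    have := Pool.Agent.W2helper66.TQ.lam_sq
    linear_combination this
  rw [h3]
  exact (h2.mul_right h2).neg_right

section val
variable {Γ : Type} [LinearOrderedCommGroupWithZero Γ]

lemma v_real_cube {v : Valuation ℂ Γ} (hv : v 3 < 1) {D : ℕ} (hD : ¬ 3 ∣ D) {r : ℝ}
    (hr : r ^ 3 = D) : v (r : ℂ) = 1 := by
  have h1 : ((r : ℂ)) ^ 3 = (D : ℂ) := by exact_mod_cast hr
  have h2 : v (r : ℂ) ^ 3 = 1 := by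
    rw [← map_pow, h1]
    exact Pool.Agent.W2helper24.TQ.v_nat_three hv hD
  exact (pow_eq_one_iff_of_nonneg zero_le three_ne_zero).1 h2

/-- the real period of `y² = 4 x³ - 4 D²` -/
theorem v_period {Ω : ℂ} {hΩ : Ω ≠ 0} (hC : CurM (hex Ω hΩ) Ω) {D : ℕ} (hD0 : 0 < D) (hD : ¬ 3 ∣ D)
    {L : PeriodPair} {ω : ℝ} (h2 : L.g₂ = 0) (h3 : L.g₃ = 4 * (D : ℂ) ^ 2)
    (h : IsLeast {t : ℝ | 0 < t ∧ (t : ℂ) ∈ L.lattice} ω) {v : Valuation ℂ Γ} (hv : v 3 < 1) :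
    v Ω = v (ω : ℂ) := by
  obtain ⟨r, hr0, hr⟩ : ∃ r : ℝ, 0 < r ∧ r ^ 3 = D := by
    refine ⟨(D : ℝ) ^ ((3 : ℕ) : ℝ)⁻¹, by positivity, ?_⟩
    exact Real.rpow_inv_natCast_pow (by positivity) (by norm_num)
  have hrC : (r : ℂ) ≠ 0 := by exact_mod_cast hr0.ne'
  have hr3 : (r : ℂ) ^ 3 = (D : ℂ) := by exact_mod_cast hr
  have hne : Ω / r ≠ 0 := div_ne_zero hΩ hrC
  have h4 : (hex (Ω / r) hne).g₃ = 4 * (D : ℂ) ^ 2 := by
    have h5 := hC.g3
    rw [hex_g3_scale hΩ] at h5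
    rw [hex_g3_scale hne, ← hr3]
    have h6 : (hex 1 one_ne_zero).g₃ = 4 * Ω ^ 6 := by
      rw [div_eq_iff (pow_ne_zero _ hΩ)] at h5
      exact h5
    rw [h6]
    field_simp
  have h5 := Pool.Agent.Y577.LU.lat_unique L (hex (Ω / r) hne) (h2.trans (hex_g2 _ hne).symm)
    (h3.trans h4.symm)
  have hmem : ∀ t : ℝ, (t : ℂ) ∈ L.lattice ↔ ((r * t : ℝ) : ℂ) ∈ (hex Ω hΩ).lattice := by
    intro t
    rw [h5, (hex_lat _ hne).mem, (hex_lat _ hΩ).mem]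
    constructor
    · rintro ⟨a, ha⟩
      refine ⟨a, ?_⟩
      push_cast
      rw [ha]
      field_simp
    · rintro ⟨a, ha⟩
      refine ⟨a, ?_⟩
      push_cast at ha
      rw [div_mul_eq_mul_div, ← ha]
      field_simp
  have h6 : IsLeast {t : ℝ | 0 < t ∧ (t : ℂ) ∈ (hex Ω hΩ).lattice} (r * ω) := by
    refine ⟨⟨mul_pos hr0 h.1.1, (hmem ω).1 h.1.2⟩, ?_⟩
    rintro t ⟨ht0, ht⟩
    have h7 := h.2 (show t / r ∈ {t : ℝ | 0 < t ∧ (t : ℂ) ∈ L.lattice} from ⟨div_pos ht0 hr0, by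
      rw [hmem, mul_div_cancel₀ _ hr0.ne']
      exact ht⟩)
    rwa [le_div_iff₀ hr0, mul_comm] at h7
  obtain ⟨β, hβ, hl⟩ := exists_beta hC h6
  have h7 : v (β : ℂ) = 1 := Pool.Agent.W2helper66.TQ.v_cop3 hv (cop_of_not hl)
  have h8 := congrArg v hβ
  push_cast at h8
  rw [map_mul, map_mul, h7, mul_one, v_real_cube hv hD hr, one_mul] at h8
  exact h8.symm

end val

end Pool.Agent.W2helper99.TQ
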