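import Mathlib
import Pool.Agent.W2helper99.TQ.Per

/-!
# The primes of the Eisenstein integers above the rational primes (project TQ, piece H3)
-/

set_option autoImplicit false

namespace Pool.Agent.W2helper99.TQ

open NumberField IsDedekindDomain Complex Filter Topology
open Pool.Agent.Y696 Pool.Agent.W192.HK Pool.Agent.TH936.CM Pool.Agent.TH936.PU
open Pool.Agent.W2helper24.TQ
open Pool.Agent.W2helper73.TQ (cop_six not_cop_six)
open Pool.Agent.W2helper19.TQ (E E_rep E_norm E_inj E_int E_mul E_cj mem_int mem_lam prm_iff)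
open scoped Classical

/-- the conjugation -/
noncomputable def cjE : eis ≃+* eis where
  toFun := cj
  invFun := cj
  left_inv z := coe_inj' (by rw [cj_coe, cj_coe, Complex.conj_conj])
  right_inv z := coe_inj' (by rw [cj_coe, cj_coe, Complex.conj_conj])
  map_mul' a b := coe_inj' (by push_cast; rw [cj_coe, cj_coe, cj_coe]; push_cast; rw [map_mul])
  map_add' a b := coe_inj' (by push_cast; rw [cj_coe, cj_coe, cj_coe]; push_cast; rw [map_add])

lemma cjE_apply (z : eis) : cjE z = cj z := rfl

lemma cj_cj (z : eis) : cj (cj z) = z := cjE.symm_apply_apply z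

lemma cj_mul (a b : eis) : cj (a * b) = cj a * cj b := map_mul cjE a b

lemma cj_sub (a b : eis) : cj (a - b) = cj a - cj b := map_sub cjE a b

lemma cj_pow (a : eis) (n : ℕ) : cj (a ^ n) = cj a ^ n := map_pow cjE a n

lemma cj_nat (n : ℕ) : cj (n : eis) = n := map_natCast cjE n

lemma cj_one : cj 1 = 1 := map_one cjE

lemma prime_cj {π : eis} (h : Prime π) : Prime (cj π) := (MulEquiv.prime_iff (cjE : eis ≃* eis)).2 h

lemma nat_inj {a b : ℕ} (h : (a : eis) = (b : eis)) : a = b := by
  have := congrArg (fun x : eis => (x : ℂ)) h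
  push_cast at this
  exact_mod_cast this

/-- the norm -/
lemma exists_norm (z : eis) : ∃ n : ℕ, z * cj z = (n : eis) := by
  obtain ⟨n, hn⟩ := norm_int z
  refine ⟨n, coe_inj' ?_⟩
  rw [cj_mul_coe, hn]
  push_cast
  rfl

lemma card_of_norm {z : eis} {n : ℕ} (h : z * cj z = (n : eis)) :
    Nat.card (eis ⧸ (sp z : Ideal eis)) = n := by
  have h1 := nm_sp z
  unfold nm at h1
  have h2 := congrArg (fun x : eis => (x : ℂ)) h
  rw [cj_mul_coe] at h2
  push_cast at h2
  have h3 : Complex.normSq (z : ℂ) = n := by exact_mod_cast h2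
  rw [h3] at h1
  exact_mod_cast h1

lemma unit_of_norm {z : eis} (h : z * cj z = ((1 : ℕ) : eis)) : IsUnit z := by
  rw [Nat.cast_one] at h
  exact IsUnit.of_mul_eq_one _ h

lemma norm_ne_one {π : eis} (h : Prime π) {n : ℕ} (hn : π * cj π = (n : eis)) : n ≠ 1 := by
  rintro rfl
  exact h.not_isUnit (unit_of_norm hn)

/-! ## The rational prime below -/

lemma exists_pr (P : HeightOneSpectrum eis) : ∃ p : Nat.Primes, (((p : ℕ)) : eis) ∈ P.asIdeal := by
  have hpmax : P.asIdeal.IsMaximal := P.isPrime.isMaximal P.ne_bot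
  have hfin : Finite (eis ⧸ P.asIdeal) := by
    rw [gP_span]
    exact finite_q (gP_ne _)
  let _ : Field (eis ⧸ P.asIdeal) := Ideal.Quotient.field _
  obtain ⟨p, hp⟩ := CharP.exists (eis ⧸ P.asIdeal)
  have hpp : p.Prime := (CharP.char_is_prime_or_zero (eis ⧸ P.asIdeal) p).resolve_right (by
    rintro rfl
    exact (CharP.char_ne_zero_of_finite (eis ⧸ P.asIdeal) 0) rfl)
  refine ⟨⟨p, hpp⟩, ?_⟩
  rw [← Ideal.Quotient.eq_zero_iff_mem, map_natCast]
  exact CharP.cast_eq_zero _ p

lemma not_both {P : HeightOneSpectrum eis} {a b : ℕ} (h : Nat.Coprime a b)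
    (ha : ((a : ℕ) : eis) ∈ P.asIdeal) (hb : ((b : ℕ) : eis) ∈ P.asIdeal) : False := by
  obtain ⟨x, y, hxy⟩ := Nat.isCoprime_iff_coprime.2 h
  apply P.isPrime.ne_top
  rw [Ideal.eq_top_iff_one]
  have h1 : (x : eis) * (a : eis) + (y : eis) * (b : eis) = 1 := by
    have := congrArg (fun z : ℤ => (z : eis)) hxy
    push_cast at this
    exact this
  rw [← h1]
  exact P.asIdeal.add_mem (P.asIdeal.mul_mem_left _ ha) (P.asIdeal.mul_mem_left _ hb)

/-- the rational prime below -/
noncomputable def bl (P : HeightOneSpectrum eis) : Nat.Primes := (exists_pr P).choose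

lemma bl_mem (P : HeightOneSpectrum eis) : (((bl P : ℕ)) : eis) ∈ P.asIdeal := (exists_pr P).choose_spec

lemma bl_uniq {P : HeightOneSpectrum eis} {p : Nat.Primes} (h : (((p : ℕ)) : eis) ∈ P.asIdeal) :
    bl P = p := by
  by_contra hne
  exact not_both ((Nat.coprime_primes (bl P).2 p.2).2 (fun h2 => hne (Subtype.ext h2))) (bl_mem P) h

lemma bl_dvd {P : HeightOneSpectrum eis} {n : ℕ} (h : ((n : ℕ) : eis) ∈ P.asIdeal) :
    (bl P : ℕ) ∣ n := by
  by_contra hne
  exact not_both (((bl P).2.coprime_iff_not_dvd).2 hne) (bl_mem P) h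

/-- regrouping -/
theorem regroup {f : HeightOneSpectrum eis → ℂ} {a : ℂ} (h : HasProd f a) {g : Nat.Primes → ℂ}
    (hg : ∀ p, HasProd (fun P : {P : HeightOneSpectrum eis // bl P = p} => f P.1) (g p)) :
    HasProd g a := by
  have h3 := (Equiv.sigmaFiberEquiv bl).hasProd_iff.2 h
  exact h3.sigma fun p => hg p

/-- the prime ideal of a prime element -/
noncomputable def hp (π : eis) (h : Prime π) : HeightOneSpectrum eis :=
  ⟨sp π, (Ideal.span_singleton_prime h.ne_zero).2 h, by
    rw [Ne, Ideal.span_singleton_eq_bot]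
    exact h.ne_zero⟩

lemma eq_hp {π : eis} (h : Prime π) {P : HeightOneSpectrum eis} (hd : π ∈ P.asIdeal) :
    P = hp π h := by
  apply HeightOneSpectrum.ext
  show P.asIdeal = sp π
  have h1 : (sp π : Ideal eis) ≤ P.asIdeal := by
    rw [Ideal.span_singleton_le_iff_mem]
    exact hd
  have h2 := (hp π h).isPrime.isMaximal (hp π h).ne_bot
  exact (h2.eq_of_le P.isPrime.ne_top h1).symm

/-! ## Splitting -/

/-- `p` splits or is a prime -/
theorem split_or (h1B : P_B1) {p : ℕ} (hpp : p.Prime) (h2 : p ≠ 2) (h3 : p ≠ 3) :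
    (∃ π : eis, Prime π ∧ Prm π ∧ π * cj π = (p : eis)) ∨
      (p % 3 = 2 ∧ Prime ((p : ℕ) : eis) ∧ Prm (-((p : ℕ) : eis))) := by
  have hnu : ¬ IsUnit ((p : ℕ) : eis) := by
    intro hu
    rw [isUnit_iff'] at hu
    have h5 : ((p : ℝ)) * p = 1 := by
      have h6 : (((p : ℕ) : eis) : ℂ) = ((p : ℝ) : ℂ) := by push_cast; rfl
      rw [h6, Complex.normSq_ofReal] at hu
      exact hu
    have h7 : p * p = 1 := by exact_mod_cast h5
    have := hpp.two_le
    nlinarith
  obtain ⟨M, hM, hzM⟩ := exists_max_ideal_of_mem_nonunits (mem_nonunits_iff.2 hnu)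
  have hMb : M ≠ ⊥ := by
    intro hbot
    rw [hbot, Ideal.mem_bot] at hzM
    have := nat_inj (hzM.trans (Nat.cast_zero).symm)
    exact hpp.ne_zero this
  set P : HeightOneSpectrum eis := ⟨M, hM.isPrime, hMb⟩ with hP
  have hpP : ((p : ℕ) : eis) ∈ P.asIdeal := hzM
  have h6P : (6 : eis) ∉ P.asIdeal := by
    intro h6
    have h7 : (((6 : ℕ)) : eis) ∈ P.asIdeal := by exact_mod_cast h6
    have h8 : Nat.Coprime p 6 := by
      rw [hpp.coprime_iff_not_dvd]
      intro h9
      have h10 : p ∣ 2 * 3 := h9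
      rcases hpp.dvd_mul.1 h10 with h | h
      · exact h2 ((Nat.prime_dvd_prime_iff_eq hpp Nat.prime_two).1 h)
      · exact h3 ((Nat.prime_dvd_prime_iff_eq hpp Nat.prime_three).1 h)
    exact not_both h8 hpP h7
  obtain ⟨π, hπ1, hπ2⟩ := h1B.2.1 P.asIdeal (cop_six h6P)
  have hπ0 : π ≠ 0 := by
    rintro rfl
    apply P.ne_bot
    rw [hπ1]
    exact Ideal.span_singleton_eq_bot.2 rfl
  have hprime : Prime π := by
    rw [← Ideal.span_singleton_prime hπ0]
    have := P.isPrime
    rwa [hπ1] at this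
  obtain ⟨n, hn⟩ := exists_norm π
  have hdvd : π ∣ ((p : ℕ) : eis) := by
    have h5 := hpP
    rw [hπ1] at h5
    exact Ideal.mem_span_singleton.1 h5
  obtain ⟨t, ht⟩ := hdvd
  obtain ⟨m, hm⟩ := exists_norm t
  have hnm : n * m = p ^ 2 := by
    apply nat_inj
    push_cast
    rw [← hn, ← hm, ht]
    have h5 : cj (π * t) = π * t := by rw [← ht, cj_nat]
    rw [cj_mul] at h5
    linear_combination (π * t) * h5
  obtain ⟨k, hk, hnk⟩ := (Nat.dvd_prime_pow hpp).1 (Dvd.intro m hnm)
  interval_cases k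
  · exact absurd (by rw [hnk, pow_zero]) (norm_ne_one hprime hn)
  · left
    refine ⟨π, hprime, hπ2, ?_⟩
    rw [hn, hnk, pow_one]
  · right
    have hm1 : m = 1 := by
      rw [hnk] at hnm
      exact Nat.eq_of_mul_eq_mul_left (pow_pos hpp.pos 2) (by rw [hnm, mul_one])
    rw [hm1] at hm
    have htu := unit_of_norm hm
    have hpr : Prime ((p : ℕ) : eis) := by
      rw [ht]
      obtain ⟨u, rfl⟩ := htu
      exact ((associated_mul_unit_right π _ u.isUnit).prime_iff).1 hprime
    have h32 : p % 3 = 2 := by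
      by_contra hne
      have h30 : ¬ 3 ∣ p := fun h => h3 ((Nat.prime_dvd_prime_iff_eq Nat.prime_three hpp).1 h).symm
      have h31 : 3 ∣ p - 1 := by omega
      have _ : Fact p.Prime := ⟨hpp⟩
      have _ : Fact (Nat.Prime 3) := ⟨Nat.prime_three⟩
      obtain ⟨u, hu⟩ := exists_prime_orderOf_dvd_card (G := (ZMod p)ˣ) 3 (by
        rw [ZMod.card_units]
        exact h31)
      have hu3 : (u : ZMod p) ^ 3 = 1 := by
        rw [← Units.val_pow_eq_pow_val, ← hu, pow_orderOf_eq_one, Units.val_one]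
      have hu1 : (u : ZMod p) ≠ 1 := by
        intro h
        rw [Units.val_eq_one] at h
        rw [h, orderOf_one] at hu
        omega
      have hq : (u : ZMod p) ^ 2 + u + 1 = 0 := by
        have : ((u : ZMod p) - 1) * ((u : ZMod p) ^ 2 + u + 1) = 0 := by linear_combination hu3
        exact (mul_eq_zero.1 this).resolve_left (sub_ne_zero.2 hu1)
      set x : ℤ := ((u : ZMod p).val : ℤ) with hx
      have hxu : ((x : ℤ) : ZMod p) = u := by
        rw [hx]
        push_cast
        exact ZMod.natCast_zmod_val _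
      have hdx : (p : ℤ) ∣ x ^ 2 + x + 1 := by
        rw [← ZMod.intCast_zmod_eq_zero_iff_dvd]
        push_cast
        rw [hxu]
        exact hq
      have he : E x (-1) * cj (E x (-1)) = ((x ^ 2 + x + 1 : ℤ) : eis) := by
        rw [E_norm, E_int]
        congr 1
        ring
      have hpd : ((p : ℕ) : eis) ∣ E x (-1) * cj (E x (-1)) := by
        rw [he]
        obtain ⟨w, hw⟩ := hdx
        rw [hw]
        push_cast
        exact Dvd.intro _ rfl
      have hpe : ((p : ℕ) : eis) = E p 0 := by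
        rw [← E_int]
        push_cast
        rfl
      have h1 : ¬ (p : ℤ) ∣ 1 := by
        intro h
        have := Int.eq_one_of_dvd_one (by positivity) h
        have h2 := hpp.two_le
        omega
      rcases hpr.dvd_or_dvd hpd with h | h
      · rw [← Ideal.mem_span_singleton, hpe] at h
        exact h1 ((Int.dvd_neg).1 ((mem_int p x (-1)).1 h).2)
      · rw [E_cj, ← Ideal.mem_span_singleton, hpe] at h
        have := ((mem_int p _ _).1 h).2
        rw [neg_neg] at this
        exact h1 this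
    refine ⟨h32, hpr, ?_⟩
    have hpe : -((p : ℕ) : eis) = E (-(p : ℤ)) 0 := by
      rw [← E_int]
      push_cast
      rfl
    rw [hpe, prm_iff]
    have hodd : p % 2 = 1 := by
      rcases hpp.eq_two_or_odd with h | h
      · exact absurd h h2
      · exact h
    omega

end Pool.Agent.W2helper99.TQ
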