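import Mathlib
import Pool.Agent.W2helper99.TQ.Pr

/-!
# The Euler factors of `y² = x³ - D²` (project TQ, piece H3)
-/

set_option autoImplicit false

namespace Pool.Agent.W2helper99.TQ

open NumberField IsDedekindDomain Complex Filter Topology
open Pool.Agent.Y696 Pool.Agent.W192.HK Pool.Agent.TH936.CM Pool.Agent.TH936.PU
open Pool.Agent.W2helper24.TQ
open Pool.Agent.W2helper73.TQ (cop_six not_cop_six)
open scoped Classical

lemma DCls.not_two {D : ℕ} (h : DCls D) : ¬ 2 ∣ D := fun h2 => by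
  have := (h.2.1 2 Nat.prime_two h2).1
  omega

lemma DCls.not_three {D : ℕ} (h : DCls D) : ¬ 3 ∣ D := fun h2 => by
  have := (h.2.1 3 Nat.prime_three h2).1
  omega

lemma cop_nat {a b : ℕ} (h : Nat.Coprime a b) : IsCoprime ((a : ℕ) : eis) ((b : ℕ) : eis) := by
  have h1 := (Nat.isCoprime_iff_coprime.2 h).map (Int.castRingHom eis)
  simpa using h1

/-- the properties of the cubic character -/
structure Cub (D : ℕ) (η : MulChar (eis ⧸ (sp (D : eis) : Ideal eis)) ℂ) : Prop where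
  one : ∀ u : eis, IsUnit u → et η u = 1
  val : ∀ π : eis, Prime π → IsCoprime π 3 → IsCoprime π (D : eis) →
    ∃ z : eis, z ^ 3 = 1 ∧
      π ∣ (D : eis) ^ ((Nat.card (eis ⧸ (sp π : Ideal eis)) - 1) / 3) - z ∧
      et η π = (starRingEnd ℂ) (z : ℂ)

/-- the Euler factor at `P` -/
noncomputable def W {D : ℕ} (η : MulChar (eis ⧸ (sp (D : eis) : Ideal eis)) ℂ) (s : ℂ)
    (P : HeightOneSpectrum eis) : ℂ :=
  (1 - psim P.asIdeal * eI η P.asIdeal * (nm P.asIdeal : ℂ) ^ (-s))⁻¹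

section
variable {D : ℕ} {η : MulChar (eis ⧸ (sp (D : eis) : Ideal eis)) ℂ}

lemma W_six (h1B : P_B1) {s : ℂ} {P : HeightOneSpectrum eis} (h : (6 : eis) ∈ P.asIdeal) :
    W η s P = 1 := by
  unfold W
  rw [(h1B.2.2.1 _).2 (not_cop_six h)]
  simp

lemma W_D {s : ℂ} {P : HeightOneSpectrum eis} (h : (D : eis) ∈ P.asIdeal) : W η s P = 1 := by
  unfold W
  have h1 : eI η P.asIdeal = 0 := by
    show et η (gP P) = 0
    rw [et_zero_iff]
    rintro ⟨a, b, hab⟩
    apply P.isPrime.ne_top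
    rw [Ideal.eq_top_iff_one, ← hab]
    refine P.asIdeal.add_mem (P.asIdeal.mul_mem_left _ ?_) (P.asIdeal.mul_mem_left _ h)
    have := Ideal.mem_span_singleton_self (gP P)
    rwa [← sp, ← gP_span] at this
  rw [h1]
  simp

lemma W_hp (h1B : P_B1) (hη : Cub D η) {s : ℂ} {π : eis} (hπ : Prime π) (hP : Prm π) {n : ℕ}
    (hn : π * cj π = (n : eis)) :
    W η s (hp π hπ) = (1 - (π : ℂ) * et η π * (n : ℂ) ^ (-s))⁻¹ := by
  unfold W
  have e1 : (hp π hπ).asIdeal = sp π := rfl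
  have e2 : nm (sp π : Ideal eis) = (n : ℝ) := by
    unfold nm
    rw [card_of_norm hn]
  rw [e1, h1B.1 π hP, eI_sp hη.one, e2]
  push_cast
  rfl

/-- the cube roots of unity are not congruent -/
lemma root_uniq {π u v : eis} (hπ : Prime π) (h3 : IsCoprime π 3) (hu : u ^ 3 = 1) (hv : v ^ 3 = 1)
    (h : π ∣ u - v) : u = v := by
  by_contra hne
  have h1 : (u - v) * (u ^ 2 + u * v + v ^ 2) = 0 := by linear_combination hu - hv
  have h2 := (mul_eq_zero.1 h1).resolve_left (sub_ne_zero.2 hne)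
  have h4 : (3 : eis) = (u - v) * (-(u - v) * (u * v) ^ 2) := by
    have : (u - v) * (-(u - v) * (u * v) ^ 2) = 3 * (u ^ 3 * v ^ 3) -
      (u ^ 2 + u * v + v ^ 2) * (u * v) ^ 2 := by ring
    rw [this, h2, hu, hv]
    ring
  have h5 : π ∣ 3 := by
    rw [h4]
    exact Dvd.dvd.mul_right h _
  exact hπ.not_isUnit (h3.isUnit_of_dvd' dvd_rfl h5)

lemma root_unit {z : eis} (hz : z ^ 3 = 1) : (z : ℂ) * (starRingEnd ℂ) (z : ℂ) = 1 := by
  have h1 : ((z : ℂ)) ^ 3 = 1 := by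
    have := congrArg (fun x : eis => (x : ℂ)) hz
    push_cast at this
    exact this
  have h2 : ‖(z : ℂ)‖ = 1 := by
    have h3 : ‖(z : ℂ)‖ ^ 3 = 1 := by rw [← norm_pow, h1, norm_one]
    exact (pow_eq_one_iff_of_nonneg (norm_nonneg _) three_ne_zero).1 h3
  rw [Complex.mul_conj, Complex.normSq_eq_norm_sq, h2]
  norm_num

/-- the residue map at a prime of degree one -/
lemma exists_rho {p : ℕ} (hp : p.Prime) {π : eis} (hn : π * cj π = (p : eis)) :
    ∃ ρ : eis →+* ZMod p, ∀ x, ρ x = 0 ↔ π ∣ x := by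
  have hc := card_of_norm hn
  have hfin : Finite (eis ⧸ (sp π : Ideal eis)) := Nat.finite_of_card_ne_zero (by
    rw [hc]; exact hp.ne_zero)
  let _ : Fintype (eis ⧸ (sp π : Ideal eis)) := Fintype.ofFinite _
  let e := ZMod.ringEquivOfPrime (eis ⧸ (sp π : Ideal eis)) hp (by
    rw [← Nat.card_eq_fintype_card, hc])
  refine ⟨(e.symm : (eis ⧸ (sp π : Ideal eis)) →+* ZMod p).comp (Ideal.Quotient.mk _), fun x => ?_⟩
  rw [RingHom.comp_apply]
  change e.symm _ = 0 ↔ _
  rw [EmbeddingLike.map_eq_zero_iff, Ideal.Quotient.eq_zero_iff_mem, Ideal.mem_span_singleton]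

/-- the Euler factor at a prime that splits -/
theorem fac_split (h2 : P_H2) {p : ℕ} (hp : p.Prime) (hp2 : p ≠ 2) (hp3 : p ≠ 3)
    (hpD : ¬ p ∣ D) {π z : eis} (hπ : Prime π) (hP : Prm π) (hn : π * cj π = (p : eis))
    (hz : z ^ 3 = 1) (hd : π ∣ (D : eis) ^ ((p - 1) / 3) - z) (s : ℂ) :
    facQ D p s = (1 - (π : ℂ) * (starRingEnd ℂ) (z : ℂ) * (p : ℂ) ^ (-s))⁻¹ *
      (1 - ((cj π : eis) : ℂ) * (z : ℂ) * (p : ℂ) ^ (-s))⁻¹ := by
  have _ : Fact p.Prime := ⟨hp⟩
  obtain ⟨ρ, hρ⟩ := exists_rho hp hn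
  have hk : ∀ m : ℕ, ¬ p ∣ m → ((m : ℕ) : ZMod p) ≠ 0 := by
    intro m hm h
    exact hm ((ZMod.natCast_eq_zero_iff m p).1 h)
  have h20 : (2 : ZMod p) ≠ 0 := by
    have := hk 2 (fun h => hp2 ((Nat.prime_dvd_prime_iff_eq hp Nat.prime_two).1 h))
    exact_mod_cast this
  have h30 : (3 : ZMod p) ≠ 0 := by
    have := hk 3 (fun h => hp3 ((Nat.prime_dvd_prime_iff_eq hp Nat.prime_three).1 h))
    exact_mod_cast this
  have hρz : ρ z = (D : ZMod p) ^ ((Fintype.card (ZMod p) - 1) / 3) := by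
    have h4 := (hρ _).2 hd
    rw [map_sub, map_pow, map_natCast, sub_eq_zero] at h4
    rw [ZMod.card, h4]
  have h5 := h2 (ZMod p) ρ π hπ hP h20 h30 hρ 1 (by rw [ZMod.card, pow_one, hn]) D z (hk D hpD) hz hρz
  rw [ZMod.card, pow_one, pow_one] at h5
  have h6 := congrArg (fun x : eis => (x : ℂ)) h5
  push_cast at h6
  rw [cj_coe z] at h6
  have hnd : ¬ p ∣ 6 * D := by
    intro h
    rcases hp.dvd_mul.1 h with h | h
    · rcases hp.dvd_mul.1 (show p ∣ 2 * 3 from h) with h | h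
      · exact hp2 ((Nat.prime_dvd_prime_iff_eq hp Nat.prime_two).1 h)
      · exact hp3 ((Nat.prime_dvd_prime_iff_eq hp Nat.prime_three).1 h)
    · exact hpD h
  unfold facQ
  rw [if_neg hnd, ← mul_inv]
  congr 1
  have hp0 : ((p : ℕ) : ℂ) ≠ 0 := by exact_mod_cast hp.ne_zero
  have e3 : ((p : ℕ) : ℂ) ^ (1 - 2 * s) = (p : ℂ) * ((p : ℂ) ^ (-s)) ^ 2 := by
    rw [show (1 - 2 * s : ℂ) = 1 + (2 : ℕ) * (-s) by push_cast; ring, Complex.cpow_add _ _ hp0,
      Complex.cpow_one, Complex.cpow_nat_mul]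
  have e4 : (p : ℂ) = (π : ℂ) * ((cj π : eis) : ℂ) := by
    have := congrArg (fun x : eis => (x : ℂ)) hn
    push_cast at this
    exact this.symm
  have e5 := root_unit hz
  rw [e3]
  push_cast
  rw [h6]
  linear_combination ((p : ℂ) ^ (-s)) ^ 2 * e4 -
    (π : ℂ) * ((cj π : eis) : ℂ) * ((p : ℂ) ^ (-s)) ^ 2 * e5

/-- the Euler factor at an inert prime -/
theorem fac_inert {p : ℕ} (hp : p.Prime) (hp2 : p ≠ 2) (hp3 : p % 3 = 2) (hpD : ¬ p ∣ D) (s : ℂ) :
    facQ D p s = (1 + (p : ℂ) * (((p ^ 2 : ℕ) : ℂ)) ^ (-s))⁻¹ := by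
  have _ : Fact p.Prime := ⟨hp⟩
  have _ : Fact (Nat.Prime 3) := ⟨Nat.prime_three⟩
  have hinj : Function.Injective (fun x : ZMod p => x ^ 3) := by
    intro x y hxy
    by_contra hne
    have h1 : (x - y) * (x ^ 2 + x * y + y ^ 2) = 0 := by
      have : x ^ 3 = y ^ 3 := hxy
      linear_combination this
    have h2 := (mul_eq_zero.1 h1).resolve_left (sub_ne_zero.2 hne)
    have hy : y ≠ 0 := by
      rintro rfl
      apply hne
      have : x ^ 3 = 0 := by
        have := hxy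
        simpa using this
      exact pow_eq_zero_iff (by norm_num) |>.1 this
    set u : (ZMod p)ˣ := Units.mk0 (x / y) (by
      intro h0
      rw [div_eq_zero_iff] at h0
      rcases h0 with h0 | h0
      · rw [h0] at h2
        apply hy
        have : y ^ 2 = 0 := by linear_combination h2
        exact pow_eq_zero_iff (by norm_num) |>.1 this
      · exact hy h0) with hu
    have h3 : u ^ 3 = 1 := by
      apply Units.ext
      rw [Units.val_pow_eq_pow_val, hu, Units.val_mk0, div_pow, Units.val_one,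
        div_eq_one_iff_eq (pow_ne_zero _ hy)]
      exact hxy
    have h4 : u ≠ 1 := by
      intro h
      apply hne
      have := congrArg Units.val h
      rw [hu, Units.val_mk0, Units.val_one, div_eq_one_iff_eq hy] at this
      exact this
    have h5 := orderOf_eq_prime h3 h4
    have h6 : 3 ∣ Fintype.card (ZMod p)ˣ := by
      rw [← h5]
      exact orderOf_dvd_card
    rw [ZMod.card_units] at h6
    have := hp.two_le
    omega
  have hbij : Function.Bijective (fun x : ZMod p => x ^ 3) := Finite.injective_iff_bijective.1 hinj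
  have hcard : Nat.card {P : ZMod p × ZMod p // P.2 ^ 2 = P.1 ^ 3 - (D : ZMod p) ^ 2} = p := by
    have h1 : Nat.card {P : ZMod p × ZMod p // P.2 ^ 2 = P.1 ^ 3 - (D : ZMod p) ^ 2} =
        Nat.card (ZMod p) := by
      refine Nat.card_eq_of_bijective (fun P => P.1.2) ⟨?_, ?_⟩
      · rintro ⟨⟨x, y⟩, h⟩ ⟨⟨x', y'⟩, h'⟩ (hyy : y = y')
        subst hyy
        have : x = x' := hinj (show x ^ 3 = x' ^ 3 by
          have e1 : y ^ 2 = x ^ 3 - (D : ZMod p) ^ 2 := h
          have e2 : y ^ 2 = x' ^ 3 - (D : ZMod p) ^ 2 := h'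
          linear_combination e2 - e1)
        subst this
        rfl
      · intro y
        obtain ⟨x, hx⟩ := hbij.2 (y ^ 2 + (D : ZMod p) ^ 2)
        have hx' : x ^ 3 = y ^ 2 + (D : ZMod p) ^ 2 := hx
        exact ⟨⟨(x, y), by
          change y ^ 2 = x ^ 3 - (D : ZMod p) ^ 2
          linear_combination -hx'⟩, rfl⟩
    rw [h1, Nat.card_zmod]
  have hnd : ¬ p ∣ 6 * D := by
    intro h
    rcases hp.dvd_mul.1 h with h | h
    · rcases hp.dvd_mul.1 (show p ∣ 2 * 3 from h) with h | h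
      · exact hp2 ((Nat.prime_dvd_prime_iff_eq hp Nat.prime_two).1 h)
      · have := (Nat.prime_dvd_prime_iff_eq hp Nat.prime_three).1 h
        omega
    · exact hpD h
  unfold facQ
  rw [if_neg hnd, hcard, sub_self, Int.cast_zero, zero_mul, sub_zero]
  congr 2
  have hp0 : ((p : ℕ) : ℂ) ≠ 0 := by exact_mod_cast hp.ne_zero
  rw [show (1 - 2 * s : ℂ) = 1 + (2 : ℕ) * (-s) by push_cast; ring, Complex.cpow_add _ _ hp0,
    Complex.cpow_one, Complex.cpow_nat_mul, Nat.cast_pow]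
  congr 1
  rw [← Complex.natCast_cpow_natCast_mul, Complex.cpow_nat_mul]

end

end Pool.Agent.W2helper99.TQ
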