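import Mathlib
import Pool.Agent.W2helper99.TQ.H3a

/-!
# The value at one of the L-function of `y² = x³ - D²` over `ℚ` (project TQ, piece H3)
-/

set_option autoImplicit false

namespace Pool.Agent.W2helper99.TQ

open NumberField IsDedekindDomain Complex Filter Topology
open Pool.Agent.Y696 Pool.Agent.W192.HK Pool.Agent.TH936.CM Pool.Agent.TH936.PU
open Pool.Agent.W2helper24.TQ
open Pool.Agent.W2helper73.TQ (cop_six not_cop_six exists_over_three vc_three hp_etaM)
open Pool.Agent.W2helper19.TQ (E E_rep E_norm E_inj E_int E_mul E_cj mem_int mem_lam prm_iff)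
open Pool.Agent.W192.CM (nu)
open scoped PeriodPair Classical

lemma prm_cj {π : eis} (h : Prm π) : Prm (cj π) := by
  obtain ⟨x, y, rfl⟩ := E_rep π
  rw [prm_iff] at h
  rw [E_cj, prm_iff]
  omega

lemma cj_ne {π : eis} {p : ℕ} (hp : p.Prime) (hn : π * cj π = (p : eis)) : π ≠ cj π := by
  intro h
  obtain ⟨x, y, rfl⟩ := E_rep π
  rw [E_cj] at h
  obtain ⟨h1, h2⟩ := E_inj h
  have hy : y = 0 := by omega
  subst hy
  have h3 : ((p : ℕ) : eis) = E p 0 := by
    rw [← E_int]
    push_cast
    rfl
  rw [E_norm, h3] at hn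
  obtain ⟨h4, -⟩ := E_inj hn
  have h5 : x * x = p := by rw [← h4]; ring
  have h6 : x.natAbs * x.natAbs = p := by
    have := congrArg Int.natAbs h5
    rwa [Int.natAbs_mul, Int.natAbs_natCast] at this
  have h7 : ¬ p.Prime := by
    rw [← h6]
    by_cases h9 : x.natAbs = 1
    · rw [h9]
      norm_num
    · exact Nat.not_prime_mul h9 h9
  exact h7 hp

/-- the primes above a rational prime that splits -/
lemma above_split {p : Nat.Primes} {π : eis} (hπ : Prime π) (hn : π * cj π = ((p : ℕ) : eis))
    {P : HeightOneSpectrum eis} (h : bl P = p) : P = hp π hπ ∨ P = hp (cj π) (prime_cj hπ) := by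
  have h1 := bl_mem P
  rw [h, ← hn] at h1
  rcases P.isPrime.mem_or_mem h1 with h2 | h2
  · exact Or.inl (eq_hp hπ h2)
  · exact Or.inr (eq_hp (prime_cj hπ) h2)

section
variable {D : ℕ} {η : MulChar (eis ⧸ (sp (D : eis) : Ideal eis)) ℂ}

/-- the Euler factors above `p` -/
theorem fib (h1B : P_B1) (h2 : P_H2) (hη : Cub D η) (s : ℂ) (p : Nat.Primes) :
    HasProd (fun P : {P : HeightOneSpectrum eis // bl P = p} => W η s P.1) (facQ D p s) := by
  have hpp : (p : ℕ).Prime := p.2
  by_cases hbad : (p : ℕ) ∣ 6 * D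
  · have h0 : facQ D p s = 1 := by
      unfold facQ
      rw [if_pos hbad]
    rw [h0]
    have h1 : (fun P : {P : HeightOneSpectrum eis // bl P = p} => W η s P.1) = fun _ => 1 := by
      funext P
      have h3 : (((6 * D : ℕ)) : eis) ∈ P.1.asIdeal := by
        obtain ⟨m, hm⟩ := hbad
        rw [hm]
        push_cast
        refine P.1.asIdeal.mul_mem_right _ ?_
        have := bl_mem P.1
        rwa [P.2] at this
      push_cast at h3
      rcases P.1.isPrime.mem_or_mem h3 with h4 | h4
      · exact W_six h1B h4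
      · exact W_D h4
    rw [h1]
    exact hasProd_one
  · have hp2 : (p : ℕ) ≠ 2 := fun h => hbad (by rw [h]; exact Dvd.dvd.mul_right (by norm_num) D)
    have hp3 : (p : ℕ) ≠ 3 := fun h => hbad (by rw [h]; exact Dvd.dvd.mul_right (by norm_num) D)
    have hpD : ¬ (p : ℕ) ∣ D := fun h => hbad (Dvd.dvd.mul_left h 6)
    have hc3 : IsCoprime (((p : ℕ)) : eis) 3 := by
      have := cop_nat ((Nat.coprime_primes hpp Nat.prime_three).2 hp3)
      exact_mod_cast this
    have hcD : IsCoprime (((p : ℕ)) : eis) (D : eis) :=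
      cop_nat ((hpp.coprime_iff_not_dvd).2 hpD)
    rcases split_or h1B hpp hp2 hp3 with ⟨π, hπ, hP, hn⟩ | ⟨h32, hpr, hP⟩
    · -- the split case
      have hn' : cj π * cj (cj π) = ((p : ℕ) : eis) := by rw [cj_cj, mul_comm, hn]
      have hπ3 : IsCoprime π 3 := by rw [← hn] at hc3; exact hc3.of_mul_left_left
      have hπD : IsCoprime π (D : eis) := by rw [← hn] at hcD; exact hcD.of_mul_left_left
      have hκ3 : IsCoprime (cj π) 3 := by rw [← hn] at hc3; exact hc3.of_mul_left_right
      have hκD : IsCoprime (cj π) (D : eis) := by rw [← hn] at hcD; exact hcD.of_mul_left_right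
      obtain ⟨z, hz, hd, he⟩ := hη.val π hπ hπ3 hπD
      obtain ⟨z', hz', hd', he'⟩ := hη.val (cj π) (prime_cj hπ) hκ3 hκD
      rw [card_of_norm hn] at hd
      rw [card_of_norm hn'] at hd'
      have hzz : z' = cj z := by
        refine root_uniq (prime_cj hπ) hκ3 hz' (by rw [← cj_pow, hz, cj_one]) ?_
        have h5 : cj π ∣ (D : eis) ^ (((p : ℕ) - 1) / 3) - cj z := by
          obtain ⟨t, ht⟩ := hd
          refine ⟨cj t, ?_⟩
          rw [← cj_mul, ← ht, cj_sub, cj_pow, cj_nat]
        have := dvd_sub h5 hd'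
        rwa [sub_sub_sub_cancel_left] at this
      have hfac := fac_split h2 hpp hp2 hp3 hpD hπ hP hn hz hd s
      have hb1 : bl (hp π hπ) = p := bl_uniq (by
        rw [← hn]
        exact (sp π : Ideal eis).mul_mem_right _ (Ideal.mem_span_singleton_self π))
      have hb2 : bl (hp (cj π) (prime_cj hπ)) = p := bl_uniq (by
        rw [← hn]
        exact (sp (cj π) : Ideal eis).mul_mem_left _ (Ideal.mem_span_singleton_self (cj π)))
      have hne : hp π hπ ≠ hp (cj π) (prime_cj hπ) := by
        intro h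
        have h1 : (sp π : Ideal eis) = sp (cj π) := congrArg HeightOneSpectrum.asIdeal h
        have h3 := h1B.1 π hP
        rw [h1, h1B.1 (cj π) (prm_cj hP)] at h3
        exact cj_ne hpp hn (coe_inj' h3).symm
      have hmain := hasProd_prod_of_ne_finset_one (L := .unconditional _)
        (s := {(⟨hp π hπ, hb1⟩ : {P : HeightOneSpectrum eis // bl P = p}),
          ⟨hp (cj π) (prime_cj hπ), hb2⟩})
        (f := fun P : {P : HeightOneSpectrum eis // bl P = p} => W η s P.1) (by
          rintro ⟨P, hPp⟩ hx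
          exfalso
          apply hx
          rw [Finset.mem_insert, Finset.mem_singleton]
          rcases above_split hπ hn hPp with h | h
          · exact Or.inl (Subtype.ext h)
          · exact Or.inr (Subtype.ext h))
      rw [Finset.prod_pair (fun h => hne (congrArg Subtype.val h))] at hmain
      rw [hfac]
      have e1 := W_hp h1B hη (s := s) hπ hP hn
      have e2 := W_hp h1B hη (s := s) (prime_cj hπ) (prm_cj hP) hn'
      rw [he] at e1
      rw [he', hzz, cj_coe z, Complex.conj_conj] at e2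
      simp only at hmain
      rw [e1, e2] at hmain
      exact hmain
    · -- the inert case
      have hprn : Prime (-((p : ℕ) : eis)) := hpr.neg
      have hn : -((p : ℕ) : eis) * cj (-((p : ℕ) : eis)) = (((p : ℕ) ^ 2 : ℕ) : eis) := by
        have h1 : cj (-((p : ℕ) : eis)) = -((p : ℕ) : eis) := by
          have := map_neg cjE ((p : ℕ) : eis)
          rw [cjE_apply, cjE_apply, cj_nat] at this
          exact this
        rw [h1]
        push_cast
        ring
      obtain ⟨z, hz, hd, he⟩ := hη.val _ hprn hc3.neg_left hcD.neg_left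
      rw [card_of_norm hn] at hd
      have hz1 : z = 1 := by
        refine root_uniq hprn hc3.neg_left hz (one_pow 3) ?_
        have h4 : ((p : ℕ) : ℤ) ∣ (D : ℤ) ^ (((p : ℕ) ^ 2 - 1) / 3) - 1 := by
          have _ : Fact (p : ℕ).Prime := ⟨hpp⟩
          rw [← ZMod.intCast_zmod_eq_zero_iff_dvd]
          push_cast
          have hD0 : (D : ZMod p) ≠ 0 := fun h => hpD ((ZMod.natCast_eq_zero_iff D p).1 h)
          have h5 : ((p : ℕ) ^ 2 - 1) / 3 = ((p : ℕ) - 1) * (((p : ℕ) + 1) / 3) := by
            obtain ⟨k, hk⟩ : ∃ k, (p : ℕ) + 1 = 3 * k := ⟨((p : ℕ) + 1) / 3, by omega⟩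
            have h6 : (p : ℕ) ^ 2 - 1 = 3 * (((p : ℕ) - 1) * k) := by
              have h7 : 1 ≤ (p : ℕ) := hpp.one_le
              have h8 : 1 ≤ (p : ℕ) ^ 2 := Nat.one_le_pow _ _ hpp.pos
              zify [h7, h8]
              have h9 : ((p : ℕ) : ℤ) + 1 = 3 * k := by exact_mod_cast hk
              linear_combination (((p : ℕ) : ℤ) - 1) * h9
            rw [h6, hk, Nat.mul_div_cancel_left _ (by norm_num), Nat.mul_div_cancel_left _ (by norm_num)]
          rw [h5, pow_mul, ZMod.pow_card_sub_one_eq_one hD0, one_pow, sub_self]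
        have h5 : -((p : ℕ) : eis) ∣ (D : eis) ^ (((p : ℕ) ^ 2 - 1) / 3) - 1 := by
          rw [neg_dvd]
          obtain ⟨t, ht⟩ := h4
          refine ⟨(t : eis), ?_⟩
          have := congrArg (fun n : ℤ => (n : eis)) ht
          push_cast at this
          exact this
        have := dvd_sub h5 hd
        rwa [sub_sub_sub_cancel_left] at this
      have hb1 : bl (hp _ hprn) = p := bl_uniq (by
        have := (sp (-((p : ℕ) : eis)) : Ideal eis).neg_mem
          (Ideal.mem_span_singleton_self (-((p : ℕ) : eis)))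
        rwa [neg_neg] at this)
      have hmain := hasProd_prod_of_ne_finset_one (L := .unconditional _)
        (s := {(⟨hp _ hprn, hb1⟩ : {P : HeightOneSpectrum eis // bl P = p})})
        (f := fun P : {P : HeightOneSpectrum eis // bl P = p} => W η s P.1) (by
          rintro ⟨P, hPp⟩ hx
          exfalso
          apply hx
          rw [Finset.mem_singleton]
          apply Subtype.ext
          have := bl_mem P
          rw [hPp] at this
          exact eq_hp hprn (P.asIdeal.neg_mem this))
      rw [Finset.prod_singleton] at hmain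
      have e1 := W_hp h1B hη (s := s) hprn hP hn
      rw [he, hz1] at e1
      simp only at hmain
      rw [e1] at hmain
      rw [fac_inert hpp hp2 h32 hpD s]
      have e3 : (1 + ((p : ℕ) : ℂ) * (((p : ℕ) ^ 2 : ℕ) : ℂ) ^ (-s))⁻¹ =
          (1 - ((-((p : ℕ) : eis) : eis) : ℂ) * (starRingEnd ℂ) ((1 : eis) : ℂ) *
            (((p : ℕ) ^ 2 : ℕ) : ℂ) ^ (-s))⁻¹ := by
        congr 1
        push_cast
        rw [map_one]
        ring
      rw [e3]
      exact hmain

end

/-- the residue fields at the primes that divide `D` -/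
lemma good (h1B : P_B1) {D : ℕ} (hD : DCls D) (P : HeightOneSpectrum eis)
    (hP : (D : eis) ∈ P.asIdeal) (x : eis) : x ^ 2 + 1 ∉ P.asIdeal := by
  intro hx
  have h1 : (bl P : ℕ) ∣ D := bl_dvd hP
  have h2 := (hD.2.1 _ (bl P).2 h1).1
  rcases split_or h1B (bl P).2 (by omega) (by omega) with ⟨π, hπ, -, hn⟩ | ⟨h32, -, -⟩
  · have hcard : Nat.card (eis ⧸ P.asIdeal) = (bl P : ℕ) := by
      rcases above_split hπ hn (P := P) rfl with h | h
      · rw [h]
        rw [h] at hn
        exact card_of_norm hn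
      · have hn' : cj π * cj (cj π) = ((bl P : ℕ) : eis) := by rw [cj_cj, mul_comm, hn]
        rw [h]
        rw [h] at hn'
        exact card_of_norm hn'
    have hpmax : P.asIdeal.IsMaximal := P.isPrime.isMaximal P.ne_bot
    have hfin : Finite (eis ⧸ P.asIdeal) := by
      rw [gP_span]
      exact finite_q (gP_ne _)
    let _ : Field (eis ⧸ P.asIdeal) := Ideal.Quotient.field _
    let _ : Fintype (eis ⧸ P.asIdeal) := Fintype.ofFinite _
    have h7 : IsSquare (-1 : eis ⧸ P.asIdeal) := by
      refine ⟨Ideal.Quotient.mk _ x, ?_⟩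
      have h8 : Ideal.Quotient.mk P.asIdeal (x ^ 2 + 1) = 0 := Ideal.Quotient.eq_zero_iff_mem.2 hx
      rw [map_add, map_pow, map_one] at h8
      linear_combination -h8
    rw [FiniteField.isSquare_neg_one_iff, ← Nat.card_eq_fintype_card, hcard] at h7
    omega
  · omega

/-- PIECE H3 -/
theorem piece (h1 : P_H1) (h2 : P_H2) : P_H3 := by
  intro D hD
  obtain ⟨η, hη3, hηu, hηv⟩ := h1 D hD
  have hη : Cub D η := ⟨hηu, hηv⟩
  have hc0 : (D : eis) ≠ 0 := by
    intro h
    have := nat_inj (h.trans (Nat.cast_zero).symm)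
    exact hD.1.ne' this
  have hc2 : IsCoprime (D : eis) 2 := by
    have := cop_nat (a := D) (b := 2) ((Nat.prime_two.coprime_iff_not_dvd).2 (DCls.not_two hD)).symm
    exact_mod_cast this
  have hc3 : IsCoprime (D : eis) 3 := by
    have := cop_nat (a := D) (b := 3) ((Nat.prime_three.coprime_iff_not_dvd).2 (DCls.not_three hD)).symm
    exact_mod_cast this
  obtain ⟨F, hF, hFs, hFl⟩ := B3 (D : eis) η hc0 hc2 hc3 hηu
  have hval : ∀ (L : PeriodPair) (Ω : ℂ), CurM L Ω → ∀ (Γ : Type)
      [LinearOrderedCommGroupWithZero Γ] (v : Valuation ℂ Γ), v 3 < 1 →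
      v ((starRingEnd ℂ) (F 1) / Ω) = 1 := by
    intro L Ω hC Γ _ v hv
    exact B5 L Ω hC Γ v hv (D : eis) η hc0 hc2 hc3 (good B1 hD) hηu ⟨1, by rw [pow_one]; exact hη3⟩
      (F 1) (hFl L Ω hC.lat)
  obtain ⟨Ω, hΩ, hC⟩ := exists_hexM
  refine ⟨F, hF, ?_, ?_, ?_⟩
  · intro s hs
    exact regroup (hp_etaM B1 hηu (hFs s hs)) (fib B1 h2 hη s)
  · intro h0
    obtain ⟨V, hV⟩ := exists_over_three
    have h3 := hval _ Ω hC _ V.valuation hV
    rw [h0, map_zero, zero_div, map_zero] at h3
    exact zero_ne_one h3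
  · intro L ω hL2 hL3 hω Γ _ v hv
    have h3 := hval _ Ω hC Γ (vc v) (vc_three hv)
    have h4 := v_period hC hD.1 (DCls.not_three hD) hL2 hL3 hω (vc_three hv)
    rw [vc_apply, map_div₀, Complex.conj_conj, map_div₀] at h3
    rw [vc_apply, vc_apply, Complex.conj_ofReal] at h4
    rw [map_div₀, ← h4]
    exact h3

end Pool.Agent.W2helper99.TQ
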